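import Mathlib

namespace Pool.Agent.MP_c810be_co

/-- A map between Hamming cubes is undistorted if it multiplies all Hamming distances by one
positive real number. -/
def Undistorted {k N : ℕ} (f : (Fin k → Bool) → (Fin N → Bool)) : Prop :=
  ∃ r : ℝ, 0 < r ∧ ∀ x y, (hammingDist (f x) (f y) : ℝ) = r * hammingDist x y

/-- Every subset of the `N`-cube of density at least `δ` contains an undistorted copy of the
`k`-cube. -/
def EmbProp (δ : ℝ) (k N : ℕ) : Prop :=
  ∀ D : Finset (Fin N → Bool), δ * 2 ^ N ≤ D.card →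
    ∃ f : (Fin k → Bool) → (Fin N → Bool), Undistorted f ∧ ∀ x, f x ∈ D

end Pool.Agent.MP_c810be_co
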