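import Mathlib

namespace Pool.Agent.MP_c810be_co

open Finset

/-- elementary symmetric sums -/
noncomputable def esum {ι : Type*} (ε : ι → ℝ) (A : Finset ι) (s : ℕ) : ℝ :=
  ∑ T ∈ powersetCard s A, ∏ i ∈ T, ε i

lemma esum_zero {ι : Type*} (ε : ι → ℝ) (A : Finset ι) : esum ε A 0 = 1 := by
  simp [esum]

lemma esum_insert {ι : Type*} [DecidableEq ι] (ε : ι → ℝ) {A : Finset ι} {a : ι} (ha : a ∉ A)
    (s : ℕ) : esum ε (insert a A) (s + 1) = esum ε A (s + 1) + ε a * esum ε A s := by
  unfold esum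
  rw [powersetCard_succ_insert ha, sum_union, sum_image, mul_sum]
  · congr 1
    refine sum_congr rfl fun T hT => ?_
    rw [prod_insert]
    exact fun h => ha ((mem_powersetCard.mp hT).1 h)
  · intro T hT U hU h
    have hT' : a ∉ T := fun h => ha ((mem_powersetCard.mp hT).1 h)
    have hU' : a ∉ U := fun h => ha ((mem_powersetCard.mp hU).1 h)
    rw [← erase_insert hT', h, erase_insert hU']
  · rw [disjoint_left]
    intro T hT hT'
    obtain ⟨U, _, rfl⟩ := mem_image.mp hT'
    exact ha ((mem_powersetCard.mp hT).1 (mem_insert_self _ _))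

lemma esum_rec {ι : Type*} [DecidableEq ι] (ε : ι → ℝ) (hε : ∀ i, ε i * ε i = 1) (A : Finset ι) :
    esum ε A 1 = ∑ i ∈ A, ε i ∧ ∀ s : ℕ, ((s : ℝ) + 2) * esum ε A (s + 2) =
      (∑ i ∈ A, ε i) * esum ε A (s + 1) - ((A.card : ℝ) - s) * esum ε A s := by
  induction A using Finset.induction_on with
  | empty =>
    refine ⟨by simp [esum, powersetCard_eq_empty.mpr], fun s => ?_⟩
    cases s with
    | zero => simp [esum, powersetCard_eq_empty.mpr]
    | succ s => simp [esum, powersetCard_eq_empty.mpr]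
  | insert a A ha ih =>
    obtain ⟨ih1, ih2⟩ := ih
    refine ⟨?_, fun s => ?_⟩
    · rw [esum_insert ε ha, ih1, esum_zero, sum_insert ha]
      ring
    · rw [sum_insert ha, card_insert_of_notMem ha, esum_insert ε ha, esum_insert ε ha]
      cases s with
      | zero =>
        have := ih2 0
        simp only [esum_zero, zero_add, Nat.cast_zero, ih1] at this ⊢
        push_cast
        linear_combination this - hε a
      | succ s =>
        rw [esum_insert ε ha]
        have h1 := ih2 s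
        have h2 := ih2 (s + 1)
        push_cast at h1 h2 ⊢
        linear_combination h2 + ε a * h1 - esum ε A (s + 1) * hε a

lemma seq_pos {r : ℕ} (hr : 1 ≤ r) {D : ℝ} (hD : 12 * r ≤ D) (a : ℕ → ℝ) (h0 : a 0 = 1)
    (h1 : a 1 = D)
    (hrec : ∀ s : ℕ, ((s : ℝ) + 2) * a (s + 2) = D * a (s + 1) - (36 * r - s) * a s) :
    0 ≤ a r := by
  have hrR : (1 : ℝ) ≤ r := by exact_mod_cast hr
  have key : ∀ s : ℕ, s + 1 ≤ r → 0 ≤ a s ∧ 6 * a s ≤ a (s + 1) := by
    intro s
    induction s with
    | zero => intro _; rw [h0, zero_add, h1]; constructor <;> linarith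
    | succ s ih =>
      intro hs
      obtain ⟨i1, i2⟩ := ih (by omega)
      have hsR : (s : ℝ) + 2 ≤ r := by exact_mod_cast hs
      have hs0 : (0 : ℝ) ≤ s := Nat.cast_nonneg s
      have p1 : 0 ≤ a (s + 1) := by linarith
      refine ⟨p1, ?_⟩
      have e := hrec s
      have : ((s : ℝ) + 2) * (6 * a (s + 1)) ≤ ((s : ℝ) + 2) * a (s + 2) := by
        rw [e]
        nlinarith [mul_nonneg hs0 i1, mul_le_mul_of_nonneg_right hD p1,
          mul_le_mul_of_nonneg_right hsR p1, mul_le_mul_of_nonneg_left i2 (by linarith : (0 : ℝ) ≤ r)]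
      exact le_of_mul_le_mul_left this (by linarith)
  obtain ⟨s, rfl⟩ : ∃ s, r = s + 1 := ⟨r - 1, by omega⟩
  obtain ⟨i1, i2⟩ := key s le_rfl
  linarith

lemma seq_small {r : ℕ} (hr : 1 ≤ r) {D : ℝ} (hD : |D| ≤ 12 * r) (a : ℕ → ℝ) (h0 : a 0 = 1)
    (h1 : a 1 = D)
    (hrec : ∀ s : ℕ, ((s : ℝ) + 2) * a (s + 2) = D * a (s + 1) - (36 * r - s) * a s) :
    |a r| * r.factorial ≤ (15 * r) ^ r := by
  have hrR : (1 : ℝ) ≤ r := by exact_mod_cast hr
  have key : ∀ s : ℕ, s + 1 ≤ r → |a s| * s.factorial ≤ (15 * r) ^ s ∧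
      |a (s + 1)| * (s + 1).factorial ≤ (15 * r) ^ (s + 1) := by
    intro s
    induction s with
    | zero =>
      intro _
      rw [h0, zero_add, h1]
      simp
      linarith
    | succ s ih =>
      intro hs
      obtain ⟨i1, i2⟩ := ih (by omega)
      refine ⟨i2, ?_⟩
      have hsR : (s : ℝ) + 2 ≤ r := by exact_mod_cast hs
      have hs0 : (0 : ℝ) ≤ s := Nat.cast_nonneg s
      have e : ((s : ℝ) + 2) * |a (s + 2)| ≤ 12 * r * |a (s + 1)| + 36 * r * |a s| := by
        rw [← abs_of_pos (by linarith : (0 : ℝ) < s + 2), ← abs_mul, hrec s]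
        refine (abs_sub _ _).trans ?_
        rw [abs_mul, abs_mul, abs_of_nonneg (by linarith : (0 : ℝ) ≤ 36 * r - s)]
        nlinarith [abs_nonneg (a s), abs_nonneg (a (s + 1))]
      have f1 : (((s + 1 + 1).factorial : ℕ) : ℝ) = (s + 2) * ((s + 1) * s.factorial) := by
        rw [Nat.factorial_succ, Nat.factorial_succ]
        push_cast
        ring
      have f2 : (((s + 1).factorial : ℕ) : ℝ) = (s + 1) * s.factorial := by
        rw [Nat.factorial_succ]
        push_cast
        ring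
      rw [f2] at i2
      rw [f1]
      have hf : (0 : ℝ) ≤ (s + 1) * s.factorial := by positivity
      have hp : (0 : ℝ) ≤ (15 * r) ^ s := by positivity
      calc |a (s + 1 + 1)| * ((s + 2) * ((s + 1) * s.factorial))
          = (((s : ℝ) + 2) * |a (s + 2)|) * ((s + 1) * s.factorial) := by ring
        _ ≤ (12 * r * |a (s + 1)| + 36 * r * |a s|) * ((s + 1) * s.factorial) :=
            mul_le_mul_of_nonneg_right e hf
        _ = 12 * r * (|a (s + 1)| * ((s + 1) * s.factorial)) +
              36 * r * (s + 1) * (|a s| * s.factorial) := by ring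
        _ ≤ 12 * r * (15 * r) ^ (s + 1) + 36 * r * r * (15 * r) ^ s := by
            gcongr
            linarith
        _ ≤ (15 * r) ^ (s + 1 + 1) := by
            rw [pow_succ, pow_succ, pow_succ]
            nlinarith [mul_nonneg hp (mul_self_nonneg (r : ℝ))]
  obtain ⟨s, rfl⟩ : ∃ s, r = s + 1 := ⟨r - 1, by omega⟩
  exact (key s le_rfl).2

lemma esum_lower {ι : Type*} [DecidableEq ι] (ε : ι → ℝ) (hε : ∀ i, ε i * ε i = 1) (A : Finset ι)
    {r : ℕ} (hr : 1 ≤ r) (hev : Even r) (hA : A.card = 36 * r) :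
    -((1 / 2) ^ r * ((36 * r).choose r : ℝ)) ≤ esum ε A r := by
  obtain ⟨h1, hrec⟩ := esum_rec ε hε A
  rw [hA] at hrec
  push_cast at hrec
  set D := ∑ i ∈ A, ε i
  have hnn : (0 : ℝ) ≤ (1 / 2) ^ r * ((36 * r).choose r : ℝ) := by positivity
  rcases le_total (12 * r : ℝ) D with h | h
  · linarith [seq_pos hr h (esum ε A) (esum_zero ε A) h1 hrec]
  rcases le_total D (-(12 * r : ℝ)) with h' | h'
  · have := seq_pos hr (D := -D) (by linarith) (fun s => (-1) ^ s * esum ε A s)
      (by simp [esum_zero]) (by simp [h1]) (fun s => by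
        have := hrec s
        rw [pow_succ, pow_succ]
        linear_combination (-1) ^ s * this)
    rw [hev.neg_one_pow, one_mul] at this
    linarith
  have hs := seq_small hr (abs_le.mpr ⟨h', h⟩) (esum ε A) (esum_zero ε A) h1 hrec
  have hd : (36 * r + 1 - r) ^ r ≤ r.factorial * (36 * r).choose r := by
    rw [← Nat.descFactorial_eq_factorial_mul_choose]
    exact Nat.pow_sub_le_descFactorial _ _
  have hd2 : (30 * r) ^ r ≤ r.factorial * (36 * r).choose r :=
    le_trans (Nat.pow_le_pow_left (by omega) _) hd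
  have hd3 : ((30 : ℝ) * r) ^ r ≤ r.factorial * (36 * r).choose r := by exact_mod_cast hd2
  have hf : (0 : ℝ) < r.factorial := by exact_mod_cast r.factorial_pos
  have : |esum ε A r| ≤ (1 / 2) ^ r * ((36 * r).choose r : ℝ) := by
    refine le_of_mul_le_mul_right (hs.trans ?_) hf
    calc ((15 : ℝ) * r) ^ r = (1 / 2) ^ r * (30 * r) ^ r := by
          rw [← mul_pow]; congr 1; ring
      _ ≤ (1 / 2) ^ r * (r.factorial * (36 * r).choose r) := by gcongr
      _ = _ := by ring
  exact (abs_le.mp this).1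

end Pool.Agent.MP_c810be_co
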