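import Pool.Agent.MP_c810be_co.Kraw
import Pool.Agent.MP_c810be_co.Defs

namespace Pool.Agent.MP_c810be_co

open Finset

/-- flip the coordinates in `T` -/
def flipOn {ι : Type*} [DecidableEq ι] (T : Finset ι) (x : ι → Bool) : ι → Bool :=
  fun i => if i ∈ T then !x i else x i

/-- sign of a bit -/
def sg (b : Bool) : ℝ := if b then -1 else 1

/-- character -/
def chi {ι : Type*} (S : Finset ι) (x : ι → Bool) : ℝ := ∏ i ∈ S, sg (x i)

variable {ι : Type*} [DecidableEq ι] [Fintype ι]

lemma hammingDist_flipOn (T : Finset ι) (x : ι → Bool) : hammingDist x (flipOn T x) = T.card := by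
  unfold hammingDist
  congr 1
  ext i
  simp only [flipOn, mem_filter, mem_univ, true_and]
  split_ifs with h
  · simp [h]
  · simp [h]

omit [DecidableEq ι] in
lemma chi_orth (x y : ι → Bool) :
    ∑ S : Finset ι, chi S x * chi S y = if x = y then (2 : ℝ) ^ Fintype.card ι else 0 := by
  have h : ∑ S : Finset ι, chi S x * chi S y = ∏ i, (1 + sg (x i) * sg (y i)) := by
    rw [prod_one_add, powerset_univ]
    refine sum_congr rfl fun S _ => ?_
    rw [chi, chi, prod_mul_distrib]
  rw [h]
  split_ifs with hxy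
  · subst hxy
    rw [prod_congr rfl (g := fun _ => (2 : ℝ))]
    · simp
    · intro i _
      cases x i <;> simp [sg] <;> norm_num
  · obtain ⟨i, hi⟩ := Function.ne_iff.mp hxy
    refine prod_eq_zero (mem_univ i) ?_
    revert hi
    cases x i <;> cases y i <;> simp [sg]

omit [Fintype ι] in
lemma chi_flipOn (S T : Finset ι) (x : ι → Bool) :
    chi S (flipOn T x) = chi S x * ∏ i ∈ T, (if i ∈ S then (-1 : ℝ) else 1) := by
  have h : ∏ i ∈ T, (if i ∈ S then (-1 : ℝ) else 1) = ∏ i ∈ S, (if i ∈ T then (-1 : ℝ) else 1) := by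
    rw [prod_ite_mem, prod_ite_mem, inter_comm]
  rw [h, chi, chi, ← prod_mul_distrib]
  refine prod_congr rfl fun i _ => ?_
  simp only [flipOn]
  split_ifs
  · cases x i <;> simp [sg]
  · simp

lemma corr_eq (f : (ι → Bool) → ℝ) (T : Finset ι) :
    (2 : ℝ) ^ Fintype.card ι * ∑ x, f x * f (flipOn T x) =
      ∑ S : Finset ι, (∏ i ∈ T, (if i ∈ S then (-1 : ℝ) else 1)) * (∑ x, f x * chi S x) ^ 2 := by
  have h1 : ∀ x, (2 : ℝ) ^ Fintype.card ι * f (flipOn T x) =
      ∑ y, f y * ∑ S : Finset ι, chi S (flipOn T x) * chi S y := by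
    intro x
    simp only [chi_orth, mul_ite, mul_zero]
    rw [sum_ite_eq]
    simp [mul_comm]
  calc (2 : ℝ) ^ Fintype.card ι * ∑ x, f x * f (flipOn T x)
      = ∑ x, f x * ((2 : ℝ) ^ Fintype.card ι * f (flipOn T x)) := by
        rw [mul_sum]
        exact sum_congr rfl fun x _ => by ring
    _ = ∑ x, ∑ y, ∑ S : Finset ι, (∏ i ∈ T, (if i ∈ S then (-1 : ℝ) else 1)) *
          ((f x * chi S x) * (f y * chi S y)) := by
        refine sum_congr rfl fun x _ => ?_
        rw [h1, mul_sum]
        refine sum_congr rfl fun y _ => ?_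
        rw [mul_sum, mul_sum]
        refine sum_congr rfl fun S _ => ?_
        rw [chi_flipOn]
        ring
    _ = _ := by
        simp only [sq, sum_mul_sum]
        simp only [mul_sum]
        conv_rhs => rw [sum_comm]
        refine sum_congr rfl fun x _ => ?_
        rw [sum_comm]

lemma mixing {r : ℕ} (hr : 1 ≤ r) (hev : Even r) (hι : Fintype.card ι = 36 * r)
    (f : (ι → Bool) → ℝ) :
    ((36 * r).choose r : ℝ) * ((∑ x, f x) ^ 2 - (1 / 2) ^ r * (2 ^ Fintype.card ι * ∑ x, f x ^ 2))
      ≤ 2 ^ Fintype.card ι * ∑ T ∈ powersetCard r univ, ∑ x, f x * f (flipOn T x) := by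
  have hpar : (2 : ℝ) ^ Fintype.card ι * ∑ x, f x ^ 2 =
      ∑ S : Finset ι, (∑ x, f x * chi S x) ^ 2 := by
    have := corr_eq f ∅
    simp only [prod_empty, one_mul] at this
    rw [← this]
    congr 1
    refine sum_congr rfl fun x _ => ?_
    have : flipOn ∅ x = x := by ext i; simp [flipOn]
    rw [this, sq]
  rw [hpar, mul_sum (powersetCard r univ)]
  simp only [corr_eq]
  rw [sum_comm]
  simp only [← sum_mul]
  set c : ℝ := ((36 * r).choose r : ℝ) with hc
  have hc0 : 0 ≤ c := Nat.cast_nonneg _
  have hl : ∀ S : Finset ι, (if S = ∅ then c else 0) - (1 / 2) ^ r * c ≤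
      ∑ T ∈ powersetCard r univ, ∏ i ∈ T, (if i ∈ S then (-1 : ℝ) else 1) := by
    intro S
    split_ifs with h
    · subst h
      simp only [notMem_empty, if_false, prod_const_one, sum_const, card_powersetCard, card_univ,
        hι, nsmul_eq_mul, mul_one]
      have : 0 ≤ (1 / 2) ^ r * c := by positivity
      linarith
    · have := esum_lower (fun i => if i ∈ S then (-1 : ℝ) else 1)
        (fun i => by split_ifs <;> norm_num) univ hr hev (by rw [card_univ, hι])
      rw [zero_sub]
      exact this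
  refine le_trans (le_of_eq ?_)
    (sum_le_sum fun S _ => mul_le_mul_of_nonneg_right (hl S) (sq_nonneg _))
  simp only [sub_mul, sum_sub_distrib, ite_mul, zero_mul, sum_ite_eq', mem_univ, if_true]
  rw [← mul_sum]
  simp only [chi, prod_empty, mul_one]
  ring

lemma cube_lemma {r : ℕ} (hr : 1 ≤ r) (hev : Even r) (hι : Fintype.card ι = 36 * r) (k : ℕ) :
    ∀ δ : ℝ, 0 < δ → δ ≤ 1 → (1 / 2 : ℝ) ^ r ≤ (δ / 2) ^ 2 ^ k →
      ∀ D : Finset (Fin k → ι → Bool), δ * (2 ^ Fintype.card ι) ^ k ≤ D.card →
        ∃ u v : Fin k → ι → Bool, (∀ i, hammingDist (u i) (v i) = r) ∧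
          ∀ s : Fin k → Bool, (fun i => if s i then v i else u i) ∈ D := by
  induction k with
  | zero =>
    intro δ h0 _ _ D hD
    have : 0 < D.card := by
      have : (0 : ℝ) < D.card := lt_of_lt_of_le (by simpa using h0) hD
      exact_mod_cast this
    obtain ⟨d, hd⟩ := card_pos.mp this
    refine ⟨d, d, fun i => i.elim0, fun s => ?_⟩
    have : (fun i => if s i then d i else d i) = d := funext fun i => i.elim0
    rw [this]
    exact hd
  | succ k ih =>
    intro δ h0 h1 hlam D hD
    set M : ℝ := 2 ^ Fintype.card ι with hM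
    have hM0 : 0 < M := by positivity
    set c : ℝ := ((36 * r).choose r : ℝ) with hc
    have hc0 : 0 < c := by
      rw [hc]
      exact_mod_cast Nat.choose_pos (by omega)
    let f : (Fin k → ι → Bool) → (ι → Bool) → ℝ :=
      fun w x => if (Fin.cons x w : Fin (k + 1) → ι → Bool) ∈ D then 1 else 0
    have hcard : (D.card : ℝ) = ∑ w, ∑ x, f w x := by
      rw [sum_comm, ← Fintype.sum_prod_type']
      rw [← (Fin.consEquiv fun _ : Fin (k + 1) => ι → Bool).symm.sum_comp]
      simp [f, Fin.consEquiv]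
    have hW : (Fintype.card (Fin k → ι → Bool) : ℝ) = M ^ k := by
      simp [hM]
    have hX : (Fintype.card (ι → Bool) : ℝ) = M := by
      simp [hM]
    have hsq : ∀ w x, f w x ^ 2 = f w x := by
      intro w x
      simp only [f]
      split_ifs <;> norm_num
    have hcs : (D.card : ℝ) ^ 2 ≤ M ^ k * ∑ w, (∑ x, f w x) ^ 2 := by
      rw [hcard, ← hW]
      exact sq_sum_le_card_mul_sum_sq
    have hlam' : (1 / 2 : ℝ) ^ r ≤ δ / 2 := by
      refine hlam.trans ?_
      exact pow_le_of_le_one (by linarith) (by linarith) (by positivity)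
    have hMk : 0 < M ^ k := by positivity
    have hsum : c * (δ ^ 2 / 2 * M ^ k * M) ≤
        ∑ p ∈ powersetCard r (univ : Finset ι) ×ˢ (univ : Finset (ι → Bool)),
          ∑ w, f w p.2 * f w (flipOn p.1 p.2) := by
      have e1 := sum_le_sum fun w (_ : w ∈ univ) => mixing hr hev hι (f w)
      simp only [hsq] at e1
      rw [← mul_sum, ← mul_sum, sum_sub_distrib, ← mul_sum, ← mul_sum, ← hcard] at e1
      rw [sum_product, ← hc, ← hM] at *
      have e2 : ∑ T ∈ powersetCard r (univ : Finset ι), ∑ x, ∑ w, f w x * f w (flipOn T x) =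
          ∑ w, ∑ T ∈ powersetCard r (univ : Finset ι), ∑ x, f w x * f w (flipOn T x) := by
        conv_rhs => rw [sum_comm]
        refine sum_congr rfl fun T _ => ?_
        rw [sum_comm]
      rw [e2]
      refine le_of_mul_le_mul_left (le_trans ?_ e1) hM0
      rw [show M * (c * (δ ^ 2 / 2 * M ^ k * M)) = c * (δ ^ 2 / 2 * M ^ k * M * M) by ring]
      refine mul_le_mul_of_nonneg_left ?_ hc0.le
      set A := ∑ w, (∑ x, f w x) ^ 2
      set d : ℝ := (D.card : ℝ)
      rw [pow_succ] at hD
      have hd0 : 0 ≤ d := Nat.cast_nonneg _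
      have e3 : d * (δ * M) ≤ A := by
        refine le_of_mul_le_mul_left (le_trans ?_ hcs) hMk
        nlinarith
      have e4 : (1 / 2 : ℝ) ^ r * (M * d) ≤ δ / 2 * (M * d) :=
        mul_le_mul_of_nonneg_right hlam' (by positivity)
      have e5 : δ / 2 * M * (δ * (M ^ k * M)) ≤ δ / 2 * M * d :=
        mul_le_mul_of_nonneg_left hD (by positivity)
      nlinarith
    obtain ⟨⟨T, x⟩, hp, hTx⟩ : ∃ p ∈ powersetCard r (univ : Finset ι) ×ˢ (univ : Finset (ι → Bool)),
        δ ^ 2 / 2 * M ^ k ≤ ∑ w, f w p.2 * f w (flipOn p.1 p.2) := by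
      apply exists_le_of_sum_le
      · rw [nonempty_product]
        refine ⟨powersetCard_nonempty.mpr ?_, univ_nonempty⟩
        rw [card_univ, hι]
        omega
      · refine le_trans (le_of_eq ?_) hsum
        rw [sum_const, card_product, card_powersetCard, card_univ, card_univ, hι, nsmul_eq_mul]
        push_cast
        rw [hX]
        ring
    have hT : T.card = r := (mem_powersetCard.mp (mem_product.mp hp).1).2
    obtain ⟨u, v, huv, hs⟩ := ih (δ ^ 2 / 2) (by positivity) (by nlinarith)
      (by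
        refine hlam.trans (le_of_eq ?_)
        rw [pow_succ', pow_mul]
        congr 1
        ring)
      (univ.filter fun w => (Fin.cons x w : Fin (k + 1) → ι → Bool) ∈ D ∧
        (Fin.cons (flipOn T x) w : Fin (k + 1) → ι → Bool) ∈ D)
      (by
        refine hTx.trans (le_of_eq ?_)
        rw [card_filter]
        push_cast
        refine sum_congr rfl fun w _ => ?_
        simp only [f]
        split_ifs <;> simp_all)
    refine ⟨Fin.cons x u, Fin.cons (flipOn T x) v, fun i => ?_, fun s => ?_⟩
    · refine Fin.cases ?_ (fun j => ?_) i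
      · simp [hammingDist_flipOn, hT]
      · simpa using huv j
    · have := (mem_filter.mp (hs (Fin.tail s))).2
      cases hs0 : s 0
      · convert this.1 using 1
        funext i
        refine Fin.cases ?_ (fun j => ?_) i
        · simp [hs0]
        · simp [Fin.tail]
      · convert this.2 using 1
        funext i
        refine Fin.cases ?_ (fun j => ?_) i
        · simp [hs0]
        · simp [Fin.tail]

lemma embProp_of {r k : ℕ} (hr : 1 ≤ r) (hev : Even r) {δ : ℝ} (h0 : 0 < δ) (h1 : δ ≤ 1)
    (hlam : (1 / 2 : ℝ) ^ r ≤ (δ / 2) ^ 2 ^ k) : EmbProp δ k (k * (36 * r)) := by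
  intro D hD
  let e : Fin k × Fin (36 * r) ≃ Fin (k * (36 * r)) := finProdFinEquiv
  let g : (Fin k → Fin (36 * r) → Bool) ≃ (Fin (k * (36 * r)) → Bool) :=
    (Equiv.curry _ _ _).symm.trans (Equiv.arrowCongr e (Equiv.refl Bool))
  have hg : ∀ y p, g y (e p) = y p.1 p.2 := by
    intro y p
    simp [g, Function.uncurry]
  obtain ⟨u, v, huv, hs⟩ := cube_lemma (ι := Fin (36 * r)) hr hev (by simp) k δ h0 h1 hlam
    (D.map g.symm.toEmbedding) (by
      rw [card_map, Fintype.card_fin, ← pow_mul, mul_comm (36 * r)]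
      exact hD)
  refine ⟨fun s => g fun i => if s i then v i else u i, ⟨r, by exact_mod_cast hr, fun s t => ?_⟩,
    fun s => ?_⟩
  · have hd : ∀ y z, hammingDist (g y) (g z) = ∑ i, hammingDist (y i) (z i) := by
      intro y z
      simp only [hammingDist, card_filter]
      rw [← e.sum_comp, Fintype.sum_prod_type]
      simp only [hg]
    rw [hd]
    have : ∀ i, hammingDist (if s i then v i else u i) (if t i then v i else u i) =
        if s i ≠ t i then r else 0 := by
      intro i
      cases s i <;> cases t i <;> simp [huv, hammingDist_comm (v i)]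
    simp only [this]
    rw [← sum_filter, sum_const, smul_eq_mul, mul_comm]
    push_cast
    rfl
  · have := hs s
    rwa [mem_map_equiv, Equiv.symm_symm] at this

end Pool.Agent.MP_c810be_co
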